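import Mathlib
import Pool.Agent.H737R3.Points

set_option autoImplicit false

namespace Pool.Agent.Results.MP_3eef69_ag.Chudnovsky

open MvPolynomial Filter Topology

/-- The homogeneous ideal of the point `P` of projective `n`-space: the ideal generated by the
forms which vanish at `P`. -/
noncomputable def pointIdeal {K : Type*} [Field K] {n : ℕ}
    (P : Projectivization K (Fin (n + 1) → K)) : Ideal (MvPolynomial (Fin (n + 1)) K) :=
  Ideal.span {F | (∃ d : ℕ, F.IsHomogeneous d) ∧ eval P.rep F = 0}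

/-- The `k`-th symbolic power of the ideal of the set of points `Z`. -/
noncomputable def symbolicPower {K : Type*} [Field K] {n : ℕ}
    (Z : Finset (Projectivization K (Fin (n + 1) → K))) (k : ℕ) :
    Ideal (MvPolynomial (Fin (n + 1)) K) :=
  ⨅ P ∈ Z, pointIdeal P ^ k

/-- The least degree of a nonzero form in the ideal `J`. -/
noncomputable def initialDegree {K : Type*} [Field K] {n : ℕ}
    (J : Ideal (MvPolynomial (Fin (n + 1)) K)) : ℕ :=
  sInf {d | ∃ F ∈ J, F ≠ 0 ∧ F.IsHomogeneous d}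

/-- **Chudnovsky's conjecture**, over an arbitrary field, for every finite nonempty set of points of
projective `n`-space. -/
theorem result (K : Type*) [Field K] (n : ℕ) (hn : 1 ≤ n)
    (Z : Finset (Projectivization K (Fin (n + 1) → K))) (hZ : Z.Nonempty) :
    ∃ c : ℝ, Tendsto (fun k : ℕ => (initialDegree (symbolicPower Z k) : ℝ) / k) atTop (𝓝 c) ∧
      ((initialDegree (⨅ P ∈ Z, pointIdeal P) : ℝ) + n - 1) / n ≤ c := by
  have hI : ∀ r : ℕ, symbolicPower Z r = Pool.Agent.H737R3.wIdeal Z (fun _ => r * 1) := by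
    intro r
    simp only [mul_one]
    rfl
  have hI1 : (⨅ P ∈ Z, pointIdeal P) = Pool.Agent.H737R3.wIdeal Z (fun _ => 1 * 1) := by
    unfold Pool.Agent.H737R3.wIdeal
    simp only [mul_one, pow_one]
    rfl
  have hα : ∀ r : ℕ, initialDegree (Pool.Agent.H737R3.wIdeal Z (fun _ => r * 1)) =
      Pool.Agent.H737R3.alpha (Pool.Agent.H737R3.wIdeal Z (fun _ => r * 1)) := fun r =>
    Pool.Agent.H737R3.alphaH_eq hn Z _
  obtain ⟨c, hc⟩ := Pool.Agent.H737R3.exists_limit hn Z (fun _ => 1)
  simp only [hI, hI1, hα]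
  refine ⟨c, hc, ge_of_tendsto hc ?_⟩
  obtain ⟨q, hq⟩ := hZ
  filter_upwards [eventually_ge_atTop 1] with r hr
  have h := Pool.Agent.H737R3.real_of_nat hn le_rfl hr
    (Pool.Agent.H737R3.demailly_w hn Z (fun _ => 1) ⟨q, hq, le_rfl⟩ 1 r le_rfl)
  have e1 : (((1 : ℕ) : ℝ) + n - 1) = n := by push_cast; ring
  rw [e1] at h
  exact h

end Pool.Agent.Results.MP_3eef69_ag.Chudnovsky
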